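import Pool.Agent.Lib.MP_0e3b4a_gt.H97.Planar

/-! # CASR and CONI: the planar problems in step six -/

set_option autoImplicit false

namespace Pool.Agent.CutLoci.H97

open MeasureTheory Set Filter Topology

/-- The first basis vector. -/
noncomputable def b0 : EE 2 := EuclideanSpace.single 0 1

/-- The second basis vector. -/
noncomputable def b1 : EE 2 := EuclideanSpace.single 1 1

theorem decomp (v : EE 2) : v = v 0 • b0 + v 1 • b1 := by
  ext i
  fin_cases i <;> simp [b0, b1]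

/-- The vector `(- φ e₂, φ e₁)`. -/
noncomputable def vec : (EE 2 →ₗ[ℝ] ℝ) →ₗ[ℝ] EE 2 where
  toFun φ := (-φ b1) • b0 + φ b0 • b1
  map_add' φ ψ := by
    simp only [LinearMap.add_apply, neg_add, add_smul]
    abel
  map_smul' c φ := by
    simp only [LinearMap.smul_apply, smul_eq_mul, RingHom.id_apply, smul_add, smul_smul,
      neg_smul, smul_neg]

theorem vec_zero (φ : EE 2 →ₗ[ℝ] ℝ) : vec φ 0 = -φ b1 := by
  simp [vec, b0, b1]

theorem vec_one (φ : EE 2 →ₗ[ℝ] ℝ) : vec φ 1 = φ b0 := by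
  simp [vec, b0, b1]

theorem cr_vec (φ : EE 2 →ₗ[ℝ] ℝ) (v : EE 2) : cr (vec φ) v = -φ v := by
  conv_rhs => rw [decomp v]
  rw [cr, vec_zero, vec_one, map_add, map_smul, map_smul, smul_eq_mul, smul_eq_mul]
  ring

theorem eq_zero_of_vec {φ : EE 2 →ₗ[ℝ] ℝ} (h : vec φ = 0) : φ = 0 := by
  ext v
  have h1 := cr_vec φ v
  rw [h] at h1
  have h2 : cr 0 v = 0 := by
    unfold cr
    simp
  rw [h2] at h1
  change φ v = 0
  linarith

theorem casr : CasrStatement := by
  intro u α σ ρ hint hne hNB hρ hσ hA hyp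
  have hii : ∀ a b : ℝ, 0 ≤ a → a ≤ b → b ≤ 1 → IntervalIntegrable u volume a b := by
    intro a b ha hab hb
    exact (intervalIntegrable_iff_integrableOn_Ioc_of_le hab).2
      (hint.mono_set (Ioc_subset_Ioc ha hb))
  let M : EE 2 →ₗ[ℝ] EE 2 := vec ∘ₗ σ
  have hMv : ∀ v, M v = vec (σ v) := fun v => rfl
  have hM : M ≠ 0 := by
    intro h
    have h1 : ∀ v, σ v = 0 := fun v => eq_zero_of_vec (by rw [← hMv, h]; rfl)
    have h2 := hσ b0 b1
    rw [h1, h1] at h2
    have h3 : cr b0 b1 = 1 := by simp [cr, b0, b1]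
    rw [h3, LinearMap.zero_apply, LinearMap.zero_apply] at h2
    apply hρ
    linarith
  refine pieces hint hNB (vec α) M hM ?_
  intro a b ha hab hb hk
  obtain ⟨k, hkdef⟩ : ∃ k : ℝ → EE 2, k = fun t => vec α + M (∫ s in (0 : ℝ)..t, u s) := ⟨_, rfl⟩
  have hkt : ∀ t, vec α + M (∫ s in (0 : ℝ)..t, u s) = k t := by intro t; rw [hkdef]
  simp only [hkt] at hk
  have hintab : IntegrableOn u (Ioc a b) := hint.mono_set (Ioc_subset_Ioc ha hb)
  have hk' : IntegrableOn (fun t => M (u t)) (Ioc a b) :=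
    (LinearMap.toContinuousLinearMap M).integrable_comp hintab
  have hkprim : ∀ t ∈ Icc a b, k t = k a + ∫ s in a..t, M (u s) := by
    intro t ht
    have h1 := hii a t ha ht.1 (ht.2.trans hb)
    have h2 : ∫ s in a..t, M (u s) = M (∫ s in a..t, u s) :=
      (LinearMap.toContinuousLinearMap M).intervalIntegral_comp_comm h1
    rw [h2, ← hkt, ← hkt, add_assoc, ← map_add,
      intervalIntegral.integral_add_adjacent_intervals (hii 0 a le_rfl ha (hab.le.trans hb)) h1]
  have hcrk : ∀ t v, cr (k t) v = -(α v + σ (∫ s in (0 : ℝ)..t, u s) v) := by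
    intro t v
    rw [← hkt, hMv, ← map_add, cr_vec, LinearMap.add_apply]
  have hIoo_ae : ∀ᵐ t ∂(volume.restrict (Ioc a b)), t ∈ Ioo a b := by
    rw [← Measure.restrict_congr_set (Ioo_ae_eq_Ioc (a := a) (b := b))]
    exact ae_restrict_mem measurableSet_Ioo
  have huk : ∀ᵐ t ∂(volume.restrict (Ioc a b)), ∃ c : ℝ, u t = c • k t := by
    filter_upwards [ae_restrict_of_ae_restrict_of_subset (Ioc_subset_Ioc ha hb) hA,
      hIoo_ae] with t t1 t2
    exact exists_smul_of_cr (hk t t2) (by rw [hcrk, t1, neg_zero])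
  have hcr := hyp a b k (fun t => M (u t)) ha hab hb hk' hkprim huk
  have hmid : (a + b) / 2 ∈ Ioo a b := ⟨by linarith, by linarith⟩
  refine ⟨k ((a + b) / 2), hk _ hmid, ?_⟩
  filter_upwards [huk, hIoo_ae] with t t1 t2
  obtain ⟨c, hc⟩ := t1
  obtain ⟨c', hc'⟩ := exists_smul_of_cr (hk _ hmid)
    (dir_const hab hk' hkprim hcr hk _ hmid t t2)
  exact ⟨c * c', by rw [hc, hc', smul_smul]⟩

theorem coni : ConiStatement := by
  classical
  intro u β S hint hne hNB hS hβS hq
  have hii : ∀ a b : ℝ, 0 ≤ a → a ≤ b → b ≤ 1 → IntervalIntegrable u volume a b := by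
    intro a b ha hab hb
    exact (intervalIntegrable_iff_integrableOn_Ioc_of_le hab).2
      (hint.mono_set (Ioc_subset_Ioc ha hb))
  obtain ⟨x, hxdef⟩ : ∃ x : ℝ → EE 2, x = fun t => ∫ s in (0 : ℝ)..t, u s := ⟨_, rfl⟩
  have hxt : ∀ t, ∫ s in (0 : ℝ)..t, u s = x t := by intro t; rw [hxdef]
  have hxdiff : ∀ a b : ℝ, 0 ≤ a → a ≤ b → b ≤ 1 → x b = x a + ∫ s in a..b, u s := by
    intro a b ha hab hb
    rw [← hxt, ← hxt, intervalIntegral.integral_add_adjacent_intervals
      (hii 0 a le_rfl ha (hab.trans hb)) (hii a b ha hab hb)]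
  simp only [hxt] at hq
  -- the differentiated equation
  have hder : ∀ᵐ t ∂(volume.restrict (Ioc (0 : ℝ) 1)), β (u t) + S (x t) (u t) = 0 := by
    have hae := (hii 0 1 le_rfl zero_le_one le_rfl).ae_hasDerivAt_integral
    rw [ae_restrict_iff' measurableSet_Ioc]
    have hne1 : ∀ᵐ t : ℝ, t ≠ 1 := by simp [ae_iff, measure_singleton]
    filter_upwards [hae, hne1] with t ht htne htI
    have htu : t ∈ uIcc (0 : ℝ) 1 := by
      rw [uIcc_of_le zero_le_one]; exact ⟨htI.1.le, htI.2⟩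
    have h2 := ht htu 0 (by rw [uIcc_of_le zero_le_one]; exact ⟨le_rfl, zero_le_one⟩)
    have h2' : HasDerivAt x (u t) t := by rw [hxdef]; exact h2
    have hc : ∀ i : Fin 2, HasDerivAt (fun s => x s i) (u t i) t := by
      intro i
      exact ((EuclideanSpace.proj i : EuclideanSpace ℝ (Fin 2) →L[ℝ] ℝ).hasFDerivAt.comp_hasDerivAt
        t h2')
    have hexp : ∀ v : EE 2, β v + S v v / 2 = v 0 * β b0 + v 1 * β b1 +
        (v 0 * v 0 * S b0 b0 + 2 * (v 0 * v 1) * S b0 b1 + v 1 * v 1 * S b1 b1) / 2 := by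
      intro v
      have h3 : S v v = S (v 0 • b0 + v 1 • b1) (v 0 • b0 + v 1 • b1) := by rw [← decomp v]
      have h4 : β v = β (v 0 • b0 + v 1 • b1) := by rw [← decomp v]
      rw [h3, h4]
      simp only [map_add, map_smul, LinearMap.add_apply, LinearMap.smul_apply, smul_eq_mul]
      rw [hS b1 b0]
      ring
    have hexp2 : ∀ v w : EE 2, β w + S v w = w 0 * β b0 + w 1 * β b1 +
        (v 0 * w 0 * S b0 b0 + (v 0 * w 1 + v 1 * w 0) * S b0 b1 + v 1 * w 1 * S b1 b1) := by
      intro v w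
      have h3 : S v w = S (v 0 • b0 + v 1 • b1) (w 0 • b0 + w 1 • b1) := by
        rw [← decomp v, ← decomp w]
      have h4 : β w = β (w 0 • b0 + w 1 • b1) := by rw [← decomp w]
      rw [h3, h4]
      simp only [map_add, map_smul, LinearMap.add_apply, LinearMap.smul_apply, smul_eq_mul]
      rw [hS b1 b0]
      ring
    have h5 : HasDerivAt (fun s => x s 0 * β b0 + x s 1 * β b1 +
        (x s 0 * x s 0 * S b0 b0 + 2 * (x s 0 * x s 1) * S b0 b1 + x s 1 * x s 1 * S b1 b1) / 2)
        (u t 0 * β b0 + u t 1 * β b1 +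
        ((u t 0 * x t 0 + x t 0 * u t 0) * S b0 b0 +
          2 * (u t 0 * x t 1 + x t 0 * u t 1) * S b0 b1 +
          (u t 1 * x t 1 + x t 1 * u t 1) * S b1 b1) / 2) t :=
      (((hc 0).mul_const _).add ((hc 1).mul_const _)).add
        (((((hc 0).mul (hc 0)).mul_const _).add ((((hc 0).mul (hc 1)).const_mul 2).mul_const _)).add
          (((hc 1).mul (hc 1)).mul_const _) |>.div_const 2)
    have h6 : HasDerivAt (fun s => x s 0 * β b0 + x s 1 * β b1 +
        (x s 0 * x s 0 * S b0 b0 + 2 * (x s 0 * x s 1) * S b0 b1 + x s 1 * x s 1 * S b1 b1) / 2)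
        0 t := by
      have h7 : (fun s => x s 0 * β b0 + x s 1 * β b1 +
          (x s 0 * x s 0 * S b0 b0 + 2 * (x s 0 * x s 1) * S b0 b1 + x s 1 * x s 1 * S b1 b1) / 2)
          =ᶠ[𝓝 t] fun _ => (0 : ℝ) := by
        filter_upwards [Ioo_mem_nhds htI.1 (lt_of_le_of_ne htI.2 htne)] with s hs
        rw [← hexp]
        exact hq s ⟨hs.1.le, hs.2.le⟩
      exact (hasDerivAt_const t (0 : ℝ)).congr_of_eventuallyEq h7
    rw [hexp2]
    have h8 := h5.unique h6
    linear_combination h8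
  let M : EE 2 →ₗ[ℝ] EE 2 := vec ∘ₗ S
  have hMv : ∀ v, M v = vec (S v) := fun v => rfl
  have hcrk : ∀ t v, cr (vec β + M (x t)) v = -(β v + S (x t) v) := by
    intro t v
    rw [hMv, ← map_add, cr_vec, LinearMap.add_apply]
  by_cases hall : ∀ t ∈ Icc (0 : ℝ) 1, vec β + M (x t) ≠ 0
  · right
    refine ⟨vec β, LinearMap.toContinuousLinearMap M, ?_, ?_⟩
    · intro t ht
      rw [hxt]
      exact hall t ht
    · filter_upwards [hder, ae_restrict_mem measurableSet_Ioc] with t t1 t2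
      rw [hxt]
      have h1 : cr (vec β + M (x t)) (u t) = 0 := by rw [hcrk, t1, neg_zero]
      exact exists_smul_of_cr (hall t (Ioc_subset_Icc_self t2)) h1
  · left
    push Not at hall
    obtain ⟨t₀, ht₀, h0⟩ := hall
    have hA0 : ∀ v, β v + S (x t₀) v = 0 := by
      intro v
      have h1 := hcrk t₀ v
      rw [h0] at h1
      have h2 : cr 0 v = 0 := by
        unfold cr
        simp
      rw [h2] at h1
      linarith
    have hS0 : S ≠ 0 := by
      rintro rfl
      rcases hβS with h | h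
      · apply h
        ext v
        have h1 := hA0 v
        rwa [LinearMap.zero_apply, LinearMap.zero_apply, add_zero] at h1
      · exact h rfl
    have hM : M ≠ 0 := by
      intro h
      apply hS0
      ext v w
      have h1 : S v = 0 := eq_zero_of_vec (by rw [← hMv, h]; rfl)
      rw [h1]
      rfl
    -- the quadratic form at `y = x - x t₀`
    have hquad : ∀ t ∈ Icc (0 : ℝ) 1, S (x t - x t₀) (x t - x t₀) = 0 := by
      intro t ht
      have h1 := hq t ht
      have h2 := hq t₀ ht₀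
      have h3 := hA0 (x t)
      have h4 := hA0 (x t₀)
      have h5 := hS (x t) (x t₀)
      simp only [map_sub, LinearMap.sub_apply]
      linear_combination 2 * h1 - 2 * h3 - h5 + 2 * h4 - 2 * h2
    have hAy : ∀ t v, cr (vec β + M (x t)) v = -(S (x t - x t₀) v) := by
      intro t v
      rw [hcrk, map_sub, LinearMap.sub_apply]
      linear_combination (-1 : ℝ) * hA0 v
    refine pieces hint hNB (vec β) M hM ?_
    intro a b ha hab hb hk
    simp only [hxt] at hk
    have hintab : IntegrableOn u (Ioc a b) := hint.mono_set (Ioc_subset_Ioc ha hb)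
    have hIoo_ae : ∀ᵐ t ∂(volume.restrict (Ioc a b)), t ∈ Ioo a b := by
      rw [← Measure.restrict_congr_set (Ioo_ae_eq_Ioc (a := a) (b := b))]
      exact ae_restrict_mem measurableSet_Ioo
    have hyk : ∀ t ∈ Ioo a b, ∃ c : ℝ, x t - x t₀ = c • (vec β + M (x t)) := by
      intro t ht
      refine exists_smul_of_cr (hk t ht) ?_
      rw [hAy, hquad t ⟨ha.trans ht.1.le, ht.2.le.trans hb⟩, neg_zero]
    have hy0 : ∀ t ∈ Ioo a b, x t - x t₀ ≠ 0 := by
      intro t ht h
      apply hk t ht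
      have h1 : x t = x t₀ := sub_eq_zero.1 h
      rw [h1]
      exact h0
    have huk : ∀ᵐ t ∂(volume.restrict (Ioc a b)), ∃ c : ℝ, u t = c • (vec β + M (x t)) := by
      filter_upwards [ae_restrict_of_ae_restrict_of_subset (Ioc_subset_Ioc ha hb) hder,
        hIoo_ae] with t t1 t2
      exact exists_smul_of_cr (hk t t2) (by rw [hcrk, t1, neg_zero])
    have huy : ∀ᵐ t ∂(volume.restrict (Ioc a b)), ∃ c : ℝ, u t = c • (x t - x t₀) := by
      filter_upwards [huk, hIoo_ae] with t t1 t2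
      obtain ⟨c, hc⟩ := t1
      obtain ⟨c', hc'⟩ := hyk t t2
      have hc0 : c' ≠ 0 := by
        rintro rfl
        rw [zero_smul] at hc'
        exact hy0 t t2 hc'
      refine ⟨c / c', ?_⟩
      rw [hc', smul_smul, div_mul_cancel₀ _ hc0]
      exact hc
    have hprim : ∀ t ∈ Icc a b, x t - x t₀ = (x a - x t₀) + ∫ s in a..t, u s := by
      intro t ht
      rw [hxdiff a t ha ht.1 (ht.2.trans hb)]
      abel
    have hcr : ∀ᵐ t ∂(volume.restrict (Ioc a b)), cr (x t - x t₀) (u t) = 0 := by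
      filter_upwards [huy] with t t1
      obtain ⟨c, hc⟩ := t1
      rw [hc, cr_smul, cr_self, mul_zero]
    have hmid : (a + b) / 2 ∈ Ioo a b := ⟨by linarith, by linarith⟩
    refine ⟨x ((a + b) / 2) - x t₀, hy0 _ hmid, ?_⟩
    filter_upwards [huy, hIoo_ae] with t t1 t2
    obtain ⟨c, hc⟩ := t1
    obtain ⟨c', hc'⟩ := exists_smul_of_cr (hy0 _ hmid)
      (dir_const (k := fun t => x t - x t₀) hab hintab hprim hcr hy0 _ hmid t t2)
    exact ⟨c * c', by rw [hc, hc', smul_smul]⟩

end Pool.Agent.CutLoci.H97
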