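import Pool.Agent.Lib.MP_0e3b4a_gt.Iface3
import Pool.Agent.Lib.MP_0e3b4a_gt.H57.Null

/-! # NULL2: the endpoints of special controls form null sets, step six -/

set_option autoImplicit false

namespace Pool.Agent.CutLoci.H97

open MeasureTheory Set Filter Topology
open scoped NNReal

/-- Pairs of a linear vector field and a point. -/
abbrev ZZ : Type := (EE 2 →L[ℝ] EE 2) × EE 2

/-- The control `s ↦ exp (s M) v`. -/
noncomputable def ww2 (z : ZZ) (s : ℝ) : EE 2 := NormedSpace.exp (s • z.1) z.2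

theorem contDiff_ww : ContDiff ℝ 1 fun q : ℝ × ZZ => ww2 q.2 q.1 := by
  have h1 : ContDiff ℝ 1 (NormedSpace.exp : (EE 2 →L[ℝ] EE 2) → (EE 2 →L[ℝ] EE 2)) := by
    rw [contDiff_iff_contDiffAt]
    intro x
    exact (NormedSpace.exp_analytic (𝕂 := ℝ) x).contDiffAt
  have h2 : ContDiff ℝ 1 fun q : ℝ × ZZ => q.1 • q.2.1 :=
    contDiff_fst.smul (contDiff_fst.comp contDiff_snd)
  exact (h1.comp h2).clm_apply (contDiff_snd.comp contDiff_snd)

theorem ww_bound (B : ℝ) : ∃ L : ℝ, 0 ≤ L ∧ ∀ z ∈ Metric.closedBall (0 : ZZ) B,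
    ∀ z' ∈ Metric.closedBall (0 : ZZ) B, ∀ s ∈ Icc (0 : ℝ) 1,
      ‖ww2 z s‖ ≤ L ∧ ‖ww2 z s - ww2 z' s‖ ≤ L * ‖z - z'‖ := by
  have hproper : ProperSpace ZZ := FiniteDimensional.proper ℝ ZZ
  let K : Set (ℝ × ZZ) := Icc (0 : ℝ) 1 ×ˢ Metric.closedBall (0 : ZZ) B
  have hK : IsCompact K := isCompact_Icc.prod (isCompact_closedBall _ _)
  have hKc : Convex ℝ K := (convex_Icc 0 1).prod (convex_closedBall _ _)
  obtain ⟨C1, hC1⟩ := hK.exists_bound_of_continuousOn
    (contDiff_ww.continuous.continuousOn (s := K))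
  obtain ⟨C2, hC2⟩ := hK.exists_bound_of_continuousOn
    ((contDiff_ww.continuous_fderiv one_ne_zero).continuousOn (s := K))
  refine ⟨max (max C1 C2) 0, le_max_right _ _, fun z hz z' hz' s hs => ⟨?_, ?_⟩⟩
  · exact (hC1 (s, z) ⟨hs, hz⟩).trans ((le_max_left _ _).trans (le_max_left _ _))
  · have h1 := hKc.norm_image_sub_le_of_norm_fderiv_le (𝕜 := ℝ)
      (f := fun q : ℝ × ZZ => ww2 q.2 q.1) (C := C2) (x := (s, z')) (y := (s, z))
      (fun x _ => (contDiff_ww.differentiable one_ne_zero) x) hC2 ⟨hs, hz'⟩ ⟨hs, hz⟩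
    have h2 : ‖((s, z) : ℝ × ZZ) - (s, z')‖ = ‖z - z'‖ := by
      rw [Prod.mk_sub_mk, sub_self, Prod.norm_mk, norm_zero]
      exact max_eq_right (norm_nonneg _)
    rw [h2] at h1
    exact h1.trans (mul_le_mul_of_nonneg_right ((le_max_right _ _).trans (le_max_left _ _))
      (norm_nonneg _))

section

variable {A : Type} [NormedRing A] [NormedAlgebra ℝ A] [CompleteSpace A] (R : EE 2 →L[ℝ] A)

theorem ww_cont (z : ZZ) : Continuous (ww2 z) :=
  contDiff_ww.continuous.comp (continuous_id.prodMk continuous_const)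

omit [CompleteSpace A] in
theorem iter_cont (z : ZZ) (k : ℕ) : Continuous (iter R (ww2 z) k) := by
  induction k with
  | zero => exact continuous_const
  | succ k ih =>
    have h : Continuous fun s => iter R (ww2 z) k s * R (ww2 z s) :=
      ih.mul (R.continuous.comp (ww_cont z))
    exact intervalIntegral.continuous_primitive (fun a b => h.intervalIntegrable a b) 0

theorem iter_lip (B : ℝ) (k : ℕ) : ∃ L : ℝ, 0 ≤ L ∧ ∀ z ∈ Metric.closedBall (0 : ZZ) B,
    ∀ z' ∈ Metric.closedBall (0 : ZZ) B, ∀ t ∈ Icc (0 : ℝ) 1,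
      ‖iter R (ww2 z) k t‖ ≤ L ∧ ‖iter R (ww2 z) k t - iter R (ww2 z') k t‖ ≤ L * ‖z - z'‖ := by
  induction k with
  | zero =>
    refine ⟨‖(1 : A)‖, norm_nonneg _, fun z _ z' _ t _ => ⟨le_rfl, ?_⟩⟩
    change ‖(1 : A) - 1‖ ≤ _
    rw [sub_self, norm_zero]
    positivity
  | succ k ih =>
    obtain ⟨L, hL, h⟩ := ih
    obtain ⟨L', hL', h'⟩ := ww_bound B
    refine ⟨2 * L * (‖R‖ * L') , by positivity, fun z hz z' hz' t ht => ?_⟩
    have hcont : ∀ z, Continuous fun s => iter R (ww2 z) k s * R (ww2 z s) := fun z =>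
      (iter_cont R z k).mul (R.continuous.comp (ww_cont z))
    have hI : uIoc 0 t ⊆ Icc (0 : ℝ) 1 := by
      rw [uIoc_of_le ht.1]
      intro s hs
      exact ⟨hs.1.le, hs.2.trans ht.2⟩
    have ht1 : |t - 0| ≤ 1 := by
      rw [sub_zero, abs_of_nonneg ht.1]
      exact ht.2
    have hRb : ∀ v : EE 2, ‖R v‖ ≤ ‖R‖ * ‖v‖ := R.le_opNorm
    constructor
    · change ‖∫ s in (0 : ℝ)..t, iter R (ww2 z) k s * R (ww2 z s)‖ ≤ _
      have h1 : ∀ s ∈ uIoc 0 t, ‖iter R (ww2 z) k s * R (ww2 z s)‖ ≤ L * (‖R‖ * L') := by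
        intro s hs
        have h2 := h z hz z' hz' s (hI hs)
        have h3 := h' z hz z' hz' s (hI hs)
        calc _ ≤ ‖iter R (ww2 z) k s‖ * ‖R (ww2 z s)‖ := norm_mul_le _ _
          _ ≤ L * (‖R‖ * L') := mul_le_mul h2.1 ((hRb _).trans
            (mul_le_mul_of_nonneg_left h3.1 (norm_nonneg _))) (norm_nonneg _) hL
      calc _ ≤ L * (‖R‖ * L') * |t - 0| := intervalIntegral.norm_integral_le_of_norm_le_const h1
        _ ≤ L * (‖R‖ * L') * 1 := mul_le_mul_of_nonneg_left ht1 (by positivity)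
        _ ≤ _ := by
          have : 0 ≤ L * (‖R‖ * L') := by positivity
          linarith
    · change ‖(∫ s in (0 : ℝ)..t, iter R (ww2 z) k s * R (ww2 z s)) -
        ∫ s in (0 : ℝ)..t, iter R (ww2 z') k s * R (ww2 z' s)‖ ≤ _
      rw [← intervalIntegral.integral_sub ((hcont z).intervalIntegrable _ _)
        ((hcont z').intervalIntegrable _ _)]
      have h1 : ∀ s ∈ uIoc 0 t, ‖iter R (ww2 z) k s * R (ww2 z s) -
          iter R (ww2 z') k s * R (ww2 z' s)‖ ≤ 2 * L * (‖R‖ * L') * ‖z - z'‖ := by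
        intro s hs
        have h2 := h z hz z' hz' s (hI hs)
        have h2' := h z' hz' z hz s (hI hs)
        have h3 := h' z hz z' hz' s (hI hs)
        have e : iter R (ww2 z) k s * R (ww2 z s) - iter R (ww2 z') k s * R (ww2 z' s) =
            (iter R (ww2 z) k s - iter R (ww2 z') k s) * R (ww2 z s) +
              iter R (ww2 z') k s * R (ww2 z s - ww2 z' s) := by
          rw [map_sub]
          noncomm_ring
        rw [e]
        calc _ ≤ ‖(iter R (ww2 z) k s - iter R (ww2 z') k s) * R (ww2 z s)‖ +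
              ‖iter R (ww2 z') k s * R (ww2 z s - ww2 z' s)‖ := norm_add_le _ _
          _ ≤ ‖iter R (ww2 z) k s - iter R (ww2 z') k s‖ * ‖R (ww2 z s)‖ +
              ‖iter R (ww2 z') k s‖ * ‖R (ww2 z s - ww2 z' s)‖ :=
            add_le_add (norm_mul_le _ _) (norm_mul_le _ _)
          _ ≤ L * ‖z - z'‖ * (‖R‖ * L') + L * (‖R‖ * (L' * ‖z - z'‖)) := by
            apply add_le_add
            · exact mul_le_mul h2.2 ((hRb _).trans
                (mul_le_mul_of_nonneg_left h3.1 (norm_nonneg _))) (norm_nonneg _) (by positivity)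
            · exact mul_le_mul h2'.1 ((hRb _).trans
                (mul_le_mul_of_nonneg_left h3.2 (norm_nonneg _))) (norm_nonneg _) hL
          _ = _ := by ring
      calc _ ≤ 2 * L * (‖R‖ * L') * ‖z - z'‖ * |t - 0| :=
            intervalIntegral.norm_integral_le_of_norm_le_const h1
        _ ≤ 2 * L * (‖R‖ * L') * ‖z - z'‖ * 1 := mul_le_mul_of_nonneg_left ht1 (by positivity)
        _ = _ := mul_one _

theorem flow_lip (B : ℝ) (N : ℕ) : ∃ L : ℝ, 0 ≤ L ∧ ∀ z ∈ Metric.closedBall (0 : ZZ) B,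
    ∀ z' ∈ Metric.closedBall (0 : ZZ) B,
      ‖flow R N (ww2 z) 1 - flow R N (ww2 z') 1‖ ≤ L * ‖z - z'‖ := by
  choose L hL h using iter_lip R B
  refine ⟨∑ k ∈ Finset.range N, L k, Finset.sum_nonneg fun k _ => hL k, fun z hz z' hz' => ?_⟩
  unfold flow
  rw [← Finset.sum_sub_distrib, Finset.sum_mul]
  refine (norm_sum_le _ _).trans (Finset.sum_le_sum fun k _ => ?_)
  exact (h k z hz z' hz' 1 ⟨zero_le_one, le_rfl⟩).2

end

theorem finrank_ZZ : Module.finrank ℝ ZZ = 6 := by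
  have h1 : Module.finrank ℝ (EE 2 →L[ℝ] EE 2) = 4 := by
    rw [← (LinearMap.toContinuousLinearMap : (EE 2 →ₗ[ℝ] EE 2) ≃ₗ[ℝ] _).finrank_eq,
      Module.finrank_linearMap, finrank_euclideanSpace_fin]
  rw [Module.finrank_prod, h1, finrank_euclideanSpace_fin]

/-- NULL2 -/
theorem null2 (g : Type) [NormedAddCommGroup g] [NormedSpace ℝ g] [FiniteDimensional ℝ g] :
    Null2Statement g := by
  intro _ _ μ _ C h7
  have hR : ∀ {E : Type} [NormedAddCommGroup E] [NormedSpace ℝ E] {f : E → EE 2},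
      ContDiff ℝ 1 f → ContDiff ℝ 1 fun x => (NormedSpace.exp (C.R (f x)) : Carnot.Aff g) :=
    fun hf => H57.NullAux.contDiff_exp.comp (C.R.contDiff.comp hf)
  constructor
  · refine measure_mono_null ?_ (H57.NullAux.null_range (E := EE 2 × EE 2 × EE 2) μ
      (f := fun z => Carnot.org (NormedSpace.exp (C.R z.1) * NormedSpace.exp (C.R z.2.1) *
          NormedSpace.exp (C.R z.2.2))) (H57.NullAux.contDiff_org ?_) ?_)
    · rintro b ⟨c, c', c'', rfl⟩
      exact ⟨(c, c', c''), rfl⟩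
    · exact ((hR contDiff_fst).mul (hR (contDiff_fst.comp contDiff_snd))).mul
        (hR (contDiff_snd.comp contDiff_snd))
    · rw [Module.finrank_prod, Module.finrank_prod, finrank_euclideanSpace_fin]
      omega
  · have hproper : ProperSpace ZZ := FiniteDimensional.proper ℝ ZZ
    let f : ZZ → g := fun z => C.End (ww2 z)
    have hsub : {b | ∃ (M : EE 2 →L[ℝ] EE 2) (v : EE 2),
        b = C.End (fun s => NormedSpace.exp (s • M) v)} ⊆ range f := by
      rintro b ⟨M, v, rfl⟩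
      exact ⟨(M, v), rfl⟩
    refine measure_mono_null hsub ?_
    have hlip : ∀ x : ZZ, ∃ K : ℝ≥0, ∃ s ∈ 𝓝 x, LipschitzOnWith K f s := by
      intro x
      obtain ⟨L, hL, h⟩ := flow_lip C.R (‖x‖ + 1) (C.s + 1)
      let orgL : Carnot.Aff g →L[ℝ] g := (ContinuousLinearMap.fst ℝ g ℝ).comp
        (ContinuousLinearMap.apply ℝ (g × ℝ) ((0, 1) : g × ℝ))
      have horg : ∀ T, Carnot.org T = orgL T := fun T => rfl
      refine ⟨⟨‖orgL‖ * L, by positivity⟩, Metric.closedBall 0 (‖x‖ + 1), ?_, ?_⟩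
      · refine Filter.mem_of_superset (Metric.ball_mem_nhds x one_pos) ?_
        intro y hy
        rw [Metric.mem_closedBall, dist_zero_right]
        rw [Metric.mem_ball, dist_eq_norm] at hy
        calc ‖y‖ = ‖x + (y - x)‖ := by rw [add_sub_cancel]
          _ ≤ ‖x‖ + ‖y - x‖ := norm_add_le _ _
          _ ≤ ‖x‖ + 1 := by linarith
      · refine LipschitzOnWith.of_dist_le_mul fun z hz z' hz' => ?_
        rw [dist_eq_norm, dist_eq_norm]
        change ‖Carnot.org (flow C.R (C.s + 1) (ww2 z) 1) -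
          Carnot.org (flow C.R (C.s + 1) (ww2 z') 1)‖ ≤ ‖orgL‖ * L * ‖z - z'‖
        rw [horg, horg, ← map_sub, mul_assoc]
        exact (orgL.le_opNorm _).trans
          (mul_le_mul_of_nonneg_left (h z hz z' hz') (norm_nonneg _))
    have h1 : μ ≪ Measure.hausdorffMeasure (((Module.finrank ℝ g : NNReal)) : ℝ) := by
      have h2 : (Measure.hausdorffMeasure ((Module.finrank ℝ g : ℕ) : ℝ) :
          Measure g).IsAddHaarMeasure := isAddHaarMeasure_hausdorffMeasure
      have h3 : ((Module.finrank ℝ g : NNReal) : ℝ) = ((Module.finrank ℝ g : ℕ) : ℝ) := by simp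
      rw [h3]
      exact Measure.absolutelyContinuous_isAddHaarMeasure _ _
    refine measure_zero_of_dimH_lt h1
      (lt_of_le_of_lt (dimH_range_le_of_locally_lipschitzOn hlip) ?_)
    rw [Real.dimH_univ_eq_finrank, finrank_ZZ, ENNReal.coe_natCast]
    exact_mod_cast h7

end Pool.Agent.CutLoci.H97
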