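import Pool.Agent.Lib.MP_0e3b4a_gt.Iface3
import Pool.Agent.Lib.MP_0e3b4a_gt.H83.Cubn

/-! # Planar paths: constant directions and pieces -/

set_option autoImplicit false

namespace Pool.Agent.CutLoci.H97

open MeasureTheory Set Filter Topology
open Pool.Agent.CutLoci.H83 (exists_smul cramer zero_of_two exists_line integral_mem_line)

/-- The cross product as a linear form in the second argument. -/
noncomputable def crL (p : EE 2) : EE 2 →L[ℝ] ℝ :=
  LinearMap.toContinuousLinearMap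
    { toFun := fun v => cr p v
      map_add' := fun v w => by
        unfold cr
        simp
        ring
      map_smul' := fun c v => by
        unfold cr
        simp
        ring }

theorem crL_apply (p v : EE 2) : crL p v = cr p v := rfl

theorem cr_self (v : EE 2) : cr v v = 0 := by
  unfold cr
  ring

theorem cr_comm (v w : EE 2) : cr v w = -cr w v := by
  unfold cr
  ring

theorem cr_smul (c : ℝ) (v w : EE 2) : cr v (c • w) = c * cr v w := by
  rw [← crL_apply, map_smul, smul_eq_mul, crL_apply]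

theorem exists_smul_of_cr {v p : EE 2} (hp : p ≠ 0) (h : cr p v = 0) : ∃ c : ℝ, v = c • p := by
  refine exists_smul hp ?_
  have h1 : Pool.Agent.CutLoci.H83.crs v p = -cr p v := by
    unfold Pool.Agent.CutLoci.H83.crs cr
    ring
  rw [h1, h, neg_zero]

theorem continuousOn_of_prim {k k' : ℝ → EE 2} {a b : ℝ} (hab : a ≤ b)
    (hint : IntegrableOn k' (Ioc a b)) (hk : ∀ t ∈ Icc a b, k t = k a + ∫ s in a..t, k' s) :
    ContinuousOn k (Icc a b) := by
  have h1 : IntegrableOn k' (uIcc a b) := by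
    rw [uIcc_of_le hab, integrableOn_Icc_iff_integrableOn_Ioc]
    exact hint
  have h2 := intervalIntegral.continuousOn_primitive_interval (μ := volume) h1
  rw [uIcc_of_le hab] at h2
  exact (continuousOn_const.add h2).congr hk

/-- Local version of the direction lemma. -/
theorem dir_local {k k' : ℝ → EE 2} {a b : ℝ} (hab : a < b) (hint : IntegrableOn k' (Ioc a b))
    (hk : ∀ t ∈ Icc a b, k t = k a + ∫ s in a..t, k' s)
    (hcr : ∀ᵐ t ∂(volume.restrict (Ioc a b)), cr (k t) (k' t) = 0)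
    (hne : ∀ t ∈ Ioo a b, k t ≠ 0) (p : EE 2) (t₁ : ℝ) (ht₁ : t₁ ∈ Ioo a b)
    (h0 : cr p (k t₁) = 0) : ∃ ε : ℝ, 0 < ε ∧ ∀ t ∈ Icc (t₁ - ε) (t₁ + ε), t ∈ Ioo a b ∧
      cr p (k t) = 0 := by
  have hkc : ContinuousOn k (Icc a b) := continuousOn_of_prim hab.le hint hk
  have hkn : ContinuousOn (fun t => ‖k t‖) (Icc a b) := hkc.norm
  have hint' : IntegrableOn (fun t => ‖k' t‖) (Ioc a b) := hint.norm
  have hG : ContinuousOn (fun t => ∫ s in a..t, ‖k' s‖) (Icc a b) := by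
    have h1 : IntegrableOn (fun t => ‖k' t‖) (uIcc a b) := by
      rw [uIcc_of_le hab.le, integrableOn_Icc_iff_integrableOn_Ioc]
      exact hint'
    have h2 := intervalIntegral.continuousOn_primitive_interval (μ := volume) h1
    rwa [uIcc_of_le hab.le] at h2
  have hnb : Icc a b ∈ 𝓝 t₁ := Icc_mem_nhds ht₁.1 ht₁.2
  have hm0 : 0 < ‖k t₁‖ := norm_pos_iff.2 (hne t₁ ht₁)
  have e1 : ∀ᶠ t in 𝓝 t₁, ‖k t₁‖ / 2 < ‖k t‖ :=
    (hkn.continuousAt hnb).eventually (lt_mem_nhds (by linarith))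
  have e2 : ∀ᶠ t in 𝓝 t₁, |(∫ s in a..t, ‖k' s‖) - ∫ s in a..t₁, ‖k' s‖| < ‖k t₁‖ / 4 := by
    have h1 := Metric.continuousAt_iff.1 (hG.continuousAt hnb) (‖k t₁‖ / 4) (by linarith)
    obtain ⟨δ, hδ, h2⟩ := h1
    filter_upwards [Metric.ball_mem_nhds t₁ hδ] with t ht
    have h3 := h2 ht
    rwa [Real.dist_eq] at h3
  have e3 : ∀ᶠ t in 𝓝 t₁, t ∈ Ioo a b := Ioo_mem_nhds ht₁.1 ht₁.2
  obtain ⟨δ, hδ, hball⟩ := Metric.eventually_nhds_iff.1 (e1.and (e2.and e3))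
  refine ⟨δ / 2, by linarith, ?_⟩
  have hJ : ∀ t ∈ Icc (t₁ - δ / 2) (t₁ + δ / 2), ‖k t₁‖ / 2 < ‖k t‖ ∧
      |(∫ s in a..t, ‖k' s‖) - ∫ s in a..t₁, ‖k' s‖| < ‖k t₁‖ / 4 ∧ t ∈ Ioo a b := by
    intro t ht
    apply hball
    rw [Real.dist_eq, abs_lt]
    constructor <;> [linarith [ht.1]; linarith [ht.2]]
  have hhc : ContinuousOn (fun t => |cr p (k t)|) (Icc (t₁ - δ / 2) (t₁ + δ / 2)) := by
    have h1 : ContinuousOn (fun t => crL p (k t)) (Icc (t₁ - δ / 2) (t₁ + δ / 2)) :=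
      (crL p).continuous.comp_continuousOn (hkc.mono fun t ht => by
        have := (hJ t ht).2.2
        exact ⟨this.1.le, this.2.le⟩)
    exact h1.abs
  obtain ⟨τ, hτ, hmax⟩ := isCompact_Icc.exists_isMaxOn
    (⟨t₁, by constructor <;> linarith⟩ : (Icc (t₁ - δ / 2) (t₁ + δ / 2)).Nonempty) hhc
  set S : ℝ := |cr p (k τ)| with hS
  have hSle : ∀ t ∈ Icc (t₁ - δ / 2) (t₁ + δ / 2), |cr p (k t)| ≤ S := fun t ht => hmax ht
  have hτab := (hJ τ hτ).2.2
  -- the difference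
  have hi1 : IntervalIntegrable k' volume a t₁ :=
    (intervalIntegrable_iff_integrableOn_Ioc_of_le ht₁.1.le).2
      (hint.mono_set (Ioc_subset_Ioc le_rfl ht₁.2.le))
  have hi2 : IntervalIntegrable k' volume a τ :=
    (intervalIntegrable_iff_integrableOn_Ioc_of_le hτab.1.le).2
      (hint.mono_set (Ioc_subset_Ioc le_rfl hτab.2.le))
  have hi12 : IntervalIntegrable k' volume t₁ τ := hi1.symm.trans hi2
  have hdiff : k τ = k t₁ + ∫ s in t₁..τ, k' s := by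
    rw [hk τ ⟨hτab.1.le, hτab.2.le⟩, hk t₁ ⟨ht₁.1.le, ht₁.2.le⟩, add_assoc,
      intervalIntegral.integral_add_adjacent_intervals hi1 hi12]
  have hcrdiff : cr p (k τ) = ∫ s in t₁..τ, cr p (k' s) := by
    rw [hdiff, ← crL_apply, map_add, crL_apply, h0, zero_add,
      ← ContinuousLinearMap.intervalIntegral_comp_comm _ hi12]
    rfl
  have hsubI : uIoc t₁ τ ⊆ Icc (t₁ - δ / 2) (t₁ + δ / 2) := by
    intro s hs
    rcases le_total t₁ τ with h | h
    · rw [uIoc_of_le h] at hs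
      exact ⟨by linarith [hs.1], by linarith [hs.2, hτ.2]⟩
    · rw [uIoc_of_ge h] at hs
      exact ⟨by linarith [hs.1, hτ.1], by linarith [hs.2]⟩
  have hsubab : uIoc t₁ τ ⊆ Ioc a b := fun s hs => by
    have := (hJ s (hsubI hs)).2.2
    exact ⟨this.1, this.2.le⟩
  have hbound : ∀ᵐ s ∂(volume.restrict (uIoc t₁ τ)),
      ‖cr p (k' s)‖ ≤ S * (2 / ‖k t₁‖) * ‖k' s‖ := by
    filter_upwards [ae_restrict_of_ae_restrict_of_subset hsubab hcr,
      ae_restrict_mem measurableSet_uIoc] with s h1 h2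
    have h3 := hJ s (hsubI h2)
    obtain ⟨c, hc⟩ := exists_smul_of_cr (hne s h3.2.2) h1
    rw [hc, cr_smul, norm_mul, norm_smul, Real.norm_eq_abs (cr p (k s))]
    have h4 := hSle s (hsubI h2)
    have h5 : 1 ≤ 2 / ‖k t₁‖ * ‖k s‖ := by
      rw [div_mul_eq_mul_div, le_div_iff₀ hm0]
      linarith [h3.1]
    have hc0 : 0 ≤ ‖c‖ := norm_nonneg _
    have hS0 : 0 ≤ S := abs_nonneg _
    calc ‖c‖ * |cr p (k s)| ≤ ‖c‖ * S := mul_le_mul_of_nonneg_left h4 hc0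
      _ ≤ ‖c‖ * S * (2 / ‖k t₁‖ * ‖k s‖) := le_mul_of_one_le_right (mul_nonneg hc0 hS0) h5
      _ = _ := by ring
  have hi12' : IntervalIntegrable (fun s => S * (2 / ‖k t₁‖) * ‖k' s‖) volume t₁ τ :=
    hi12.norm.const_mul _
  have h6 := intervalIntegral.norm_integral_le_abs_of_norm_le hbound hi12'
  rw [← hcrdiff, intervalIntegral.integral_const_mul, abs_mul] at h6
  have h7 : |∫ s in t₁..τ, ‖k' s‖| < ‖k t₁‖ / 4 := by
    have h8 := (hJ τ hτ).2.1
    have h9 : (∫ s in a..τ, ‖k' s‖) - ∫ s in a..t₁, ‖k' s‖ = ∫ s in t₁..τ, ‖k' s‖ := by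
      rw [intervalIntegral.integral_interval_sub_left hi2.norm hi1.norm]
    rwa [h9] at h8
  have hS0 : S = 0 := by
    have hSn : 0 ≤ S := abs_nonneg _
    have h8 : S ≤ S * (2 / ‖k t₁‖) * (‖k t₁‖ / 4) := by
      calc S = ‖cr p (k τ)‖ := rfl
        _ ≤ |S * (2 / ‖k t₁‖)| * |∫ s in t₁..τ, ‖k' s‖| := h6
        _ ≤ S * (2 / ‖k t₁‖) * (‖k t₁‖ / 4) := by
          rw [abs_of_nonneg (by positivity)]
          exact mul_le_mul_of_nonneg_left h7.le (by positivity)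
    have h9 : S * (2 / ‖k t₁‖) * (‖k t₁‖ / 4) = S / 2 := by
      field_simp
      ring
    rw [h9] at h8
    linarith
  intro t ht
  refine ⟨(hJ t ht).2.2, ?_⟩
  have h1 := hSle t ht
  rw [hS0] at h1
  exact abs_eq_zero.1 (le_antisymm h1 (abs_nonneg _))

/-- A primitive which is everywhere parallel to its derivative has a constant direction. -/
theorem dir_const {k k' : ℝ → EE 2} {a b : ℝ} (hab : a < b) (hint : IntegrableOn k' (Ioc a b))
    (hk : ∀ t ∈ Icc a b, k t = k a + ∫ s in a..t, k' s)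
    (hcr : ∀ᵐ t ∂(volume.restrict (Ioc a b)), cr (k t) (k' t) = 0)
    (hne : ∀ t ∈ Ioo a b, k t ≠ 0) (s : ℝ) (hs : s ∈ Ioo a b) (t : ℝ) (ht : t ∈ Ioo a b) :
    cr (k s) (k t) = 0 := by
  have hkc : ContinuousOn k (Icc a b) := continuousOn_of_prim hab.le hint hk
  have hloc := fun t₁ ht₁ h0 => dir_local hab hint hk hcr hne (k s) t₁ ht₁ h0
  let U : Set ℝ := {t | t ∈ Ioo a b ∧ cr (k s) (k t) = 0}
  have hU : IsOpen U := by
    rw [Metric.isOpen_iff]
    rintro x ⟨hx, hx0⟩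
    obtain ⟨ε, hε, h⟩ := hloc x hx hx0
    refine ⟨ε, hε, fun y hy => ?_⟩
    rw [Metric.mem_ball, Real.dist_eq, abs_lt] at hy
    exact h y ⟨by linarith [hy.1], by linarith [hy.2]⟩
  have hsub : Ioo a b ⊆ U := by
    refine isPreconnected_Ioo.subset_of_closure_inter_subset hU ⟨s, hs, hs, cr_self _⟩ ?_
    rintro x ⟨hx, hxab⟩
    refine ⟨hxab, ?_⟩
    have h1 : ContinuousAt (fun t => crL (k s) (k t)) x :=
      (crL (k s)).continuous.continuousAt.comp
        (hkc.continuousAt (Icc_mem_nhds hxab.1 hxab.2))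
    have h2 : ∃ᶠ y in 𝓝 x, y ∈ U := mem_closure_iff_frequently.1 hx
    by_contra hne0
    have h3 : ∀ᶠ y in 𝓝 x, crL (k s) (k y) ≠ 0 :=
      h1.eventually (isOpen_ne.mem_nhds hne0)
    obtain ⟨y, hy1, hy2⟩ := (h2.and_eventually h3).exists
    exact hy2 hy1.2
  exact (hsub ht).2

/-- The derivative of a primitive in the kernel of a linear map. -/
theorem ae_ker {u : ℝ → EE 2} {a b : ℝ} (hab : a ≤ b) (hu : IntegrableOn u (Ioc a b))
    (M : EE 2 →ₗ[ℝ] EE 2) (h : ∀ t ∈ Icc a b, M (∫ s in a..t, u s) = 0) :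
    ∀ᵐ t ∂(volume.restrict (Ioc a b)), M (u t) = 0 := by
  have hui : IntervalIntegrable u volume a b :=
    (intervalIntegrable_iff_integrableOn_Ioc_of_le hab).2 hu
  have hae := hui.ae_hasDerivAt_integral
  rw [ae_restrict_iff' measurableSet_Ioc]
  have hne : ∀ᵐ t : ℝ, t ≠ b := by simp [ae_iff, measure_singleton]
  filter_upwards [hae, hne] with t ht htne htI
  have htu : t ∈ uIcc a b := by
    rw [uIcc_of_le hab]; exact ⟨htI.1.le, htI.2⟩
  have h2 := ht htu a (by rw [uIcc_of_le hab]; exact ⟨le_rfl, hab⟩)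
  have h3 : HasDerivAt (fun x => M (∫ s in a..x, u s)) (M (u t)) t := by
    have h4 := (LinearMap.toContinuousLinearMap M).hasFDerivAt.comp_hasDerivAt t h2
    exact h4
  have h5 : HasDerivAt (fun x => M (∫ s in a..x, u s)) 0 t := by
    have h6 : (fun x => M (∫ s in a..x, u s)) =ᶠ[𝓝 t] fun _ => (0 : EE 2) := by
      have h7 : Ioo a b ∈ 𝓝 t := Ioo_mem_nhds htI.1 (lt_of_le_of_ne htI.2 htne)
      filter_upwards [h7] with x hx'
      exact h x ⟨hx'.1.le, hx'.2.le⟩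
    exact (hasDerivAt_const t (0 : EE 2)).congr_of_eventuallyEq h6
  exact h3.unique h5

/-- The path is straight outside the zero set of `K0 + M x`: at most three pieces. -/
theorem pieces {u : ℝ → EE 2} (hint : IntegrableOn u (Ioc 0 1)) (hNB : Noback u)
    (K0 : EE 2) (M : EE 2 →ₗ[ℝ] EE 2) (hM : M ≠ 0)
    (hcomp : ∀ a b : ℝ, 0 ≤ a → a < b → b ≤ 1 →
      (∀ t ∈ Ioo a b, K0 + M (∫ s in (0 : ℝ)..t, u s) ≠ 0) →
      ∃ p : EE 2, p ≠ 0 ∧ ∀ᵐ t ∂(volume.restrict (Ioc a b)), ∃ c : ℝ, u t = c • p) :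
    Pieces u := by
  classical
  have hii : ∀ a b : ℝ, 0 ≤ a → a ≤ b → b ≤ 1 → IntervalIntegrable u volume a b := by
    intro a b ha hab hb
    exact (intervalIntegrable_iff_integrableOn_Ioc_of_le hab).2
      (hint.mono_set (Ioc_subset_Ioc ha hb))
  obtain ⟨x, hxdef⟩ : ∃ x : ℝ → EE 2, x = fun t => ∫ s in (0 : ℝ)..t, u s := ⟨_, rfl⟩
  have hxt : ∀ t, ∫ s in (0 : ℝ)..t, u s = x t := by intro t; rw [hxdef]
  simp only [hxt] at hcomp
  have hx : ContinuousOn x (Icc 0 1) := by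
    have h1 : IntegrableOn u (uIcc 0 1) := by
      rw [uIcc_of_le zero_le_one, integrableOn_Icc_iff_integrableOn_Ioc]
      exact hint
    have h2 := intervalIntegral.continuousOn_primitive_interval (μ := volume) h1
    rw [hxdef]
    rwa [uIcc_of_le zero_le_one] at h2
  have hxdiff : ∀ a b : ℝ, 0 ≤ a → a ≤ b → b ≤ 1 → x b = x a + ∫ s in a..b, u s := by
    intro a b ha hab hb
    rw [← hxt, ← hxt, intervalIntegral.integral_add_adjacent_intervals
      (hii 0 a le_rfl ha (hab.trans hb)) (hii a b ha hab hb)]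
  -- the zero set
  let Z : Set ℝ := {t | t ∈ Icc (0 : ℝ) 1 ∧ K0 + M (x t) = 0}
  have hZc : IsClosed Z := by
    have h1 : ContinuousOn (fun t => K0 + M (x t)) (Icc 0 1) :=
      continuousOn_const.add
        ((LinearMap.toContinuousLinearMap M).continuous.comp_continuousOn hx)
    exact h1.preimage_isClosed_of_isClosed isClosed_Icc isClosed_singleton
  have hZcomp : IsCompact Z := isCompact_Icc.of_isClosed_subset hZc fun t ht => ht.1
  have key : ∀ a ∈ Z, ∀ b ∈ Z, ∀ c ∈ Ioo a b, c ∈ Z := by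
    intro a haZ b hbZ c hc
    by_contra hcZ
    have h0c : 0 ≤ c := haZ.1.1.trans hc.1.le
    have hc1 : c ≤ 1 := hc.2.le.trans hbZ.1.2
    have hA : IsCompact (Z ∩ Icc a c) := hZcomp.inter_right isClosed_Icc
    have hAne : (Z ∩ Icc a c).Nonempty := ⟨a, haZ, le_rfl, hc.1.le⟩
    have hB : IsCompact (Z ∩ Icc c b) := hZcomp.inter_right isClosed_Icc
    have hBne : (Z ∩ Icc c b).Nonempty := ⟨b, hbZ, hc.2.le, le_rfl⟩
    obtain ⟨a'Z, a'm⟩ := hA.sSup_mem hAne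
    obtain ⟨b'Z, b'm⟩ := hB.sInf_mem hBne
    set a' := sSup (Z ∩ Icc a c) with ha'
    set b' := sInf (Z ∩ Icc c b) with hb'
    have a'c : a' < c := lt_of_le_of_ne a'm.2 fun h => hcZ (h ▸ a'Z)
    have cb' : c < b' := lt_of_le_of_ne b'm.1 fun h => hcZ (h ▸ b'Z)
    have hne : ∀ t ∈ Ioo a' b', K0 + M (x t) ≠ 0 := by
      intro t ht h0
      have htZ : t ∈ Z := ⟨⟨a'Z.1.1.trans ht.1.le, ht.2.le.trans b'Z.1.2⟩, h0⟩
      rcases le_total t c with h | h
      · have : t ≤ a' := le_csSup hA.bddAbove ⟨htZ, a'm.1.trans ht.1.le, h⟩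
        exact absurd ht.1 (not_lt.2 this)
      · have : b' ≤ t := csInf_le hB.bddBelow ⟨htZ, h, ht.2.le.trans b'm.2⟩
        exact absurd ht.2 (not_lt.2 this)
    obtain ⟨p, hp, hpu⟩ := hcomp a' b' a'Z.1.1 (a'c.trans cb') b'Z.1.2 hne
    obtain ⟨θ, hθ⟩ := integral_mem_line (a'c.trans cb').le
      (hii a' b' a'Z.1.1 (a'c.trans cb').le b'Z.1.2) hp hpu
    have hpu' : ∀ᵐ t ∂(volume.restrict (Ioc a' c)), ∃ c : ℝ, u t = c • p :=
      ae_restrict_of_ae_restrict_of_subset (Ioc_subset_Ioc le_rfl cb'.le) hpu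
    obtain ⟨η, hη⟩ := integral_mem_line a'c.le (hii a' c a'Z.1.1 a'c.le hc1) hp hpu'
    have hMp : M p ≠ 0 := by
      intro h
      apply hcZ
      refine ⟨⟨h0c, hc1⟩, ?_⟩
      rw [hxdiff a' c a'Z.1.1 a'c.le hc1, hη, map_add, map_smul, h, smul_zero, add_zero]
      exact a'Z.2
    have h1 := b'Z.2
    rw [hxdiff a' b' a'Z.1.1 (a'c.trans cb').le b'Z.1.2, hθ, map_add, ← add_assoc, a'Z.2,
      zero_add, map_smul] at h1
    rcases smul_eq_zero.1 h1 with h | h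
    · apply hNB a' b' p a'Z.1.1 (a'c.trans cb') b'Z.1.2 hpu
      rw [hθ, h, zero_smul]
    · exact hMp h
  have htriv : ∀ (a : ℝ) (p : EE 2), ∀ᵐ t ∂(volume.restrict (Ioc a a)), ∃ c : ℝ, u t = c • p := by
    intro a p
    simp
  rcases Z.eq_empty_or_nonempty with hZ | hZ
  · obtain ⟨p, hp, hpu⟩ := hcomp 0 1 le_rfl zero_lt_one le_rfl (fun t ht h0 => by
      have : t ∈ Z := ⟨⟨ht.1.le, ht.2.le⟩, h0⟩
      rw [hZ] at this
      exact this)
    exact ⟨1, 1, p, p, p, zero_le_one, le_rfl, le_rfl, hpu, htriv 1 p, htriv 1 p⟩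
  obtain ⟨q, hq, hqM⟩ := exists_line M hM
  have hαZ := hZcomp.sInf_mem hZ
  have hβZ := hZcomp.sSup_mem hZ
  set α := sInf Z with hα
  set β := sSup Z with hβ
  have hαβ : α ≤ β := csInf_le_csSup hZ hZcomp.bddBelow hZcomp.bddAbove
  have hmidZ : ∀ t ∈ Icc α β, t ∈ Z := by
    intro t ht
    rcases ht.1.eq_or_lt with h | h
    · exact h ▸ hαZ
    rcases ht.2.eq_or_lt with h' | h'
    · exact h' ▸ hβZ
    exact key α hαZ β hβZ t ⟨h, h'⟩
  have hmid : ∀ᵐ t ∂(volume.restrict (Ioc α β)), ∃ c : ℝ, u t = c • q := by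
    have h1 := ae_ker hαβ (hint.mono_set (Ioc_subset_Ioc hαZ.1.1 hβZ.1.2)) M (fun t ht => by
      have h2 := (hmidZ t ht).2
      rw [hxdiff α t hαZ.1.1 ht.1 (ht.2.trans hβZ.1.2), map_add, ← add_assoc, hαZ.2,
        zero_add] at h2
      exact h2)
    filter_upwards [h1] with t t1
    exact hqM _ t1
  have hleft : ∃ p : EE 2, ∀ᵐ t ∂(volume.restrict (Ioc 0 α)), ∃ c : ℝ, u t = c • p := by
    rcases hαZ.1.1.eq_or_lt with h0α | h0α
    · rw [← h0α]
      exact ⟨0, htriv 0 0⟩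
    · obtain ⟨p, _, hp⟩ := hcomp 0 α le_rfl h0α hαZ.1.2 (fun t ht h0 => by
        have htZ : t ∈ Z := ⟨⟨ht.1.le, ht.2.le.trans hαZ.1.2⟩, h0⟩
        exact absurd ht.2 (not_lt.2 (csInf_le hZcomp.bddBelow htZ)))
      exact ⟨p, hp⟩
  have hright : ∃ p : EE 2, ∀ᵐ t ∂(volume.restrict (Ioc β 1)), ∃ c : ℝ, u t = c • p := by
    rcases hβZ.1.2.eq_or_lt with hβ1 | hβ1
    · rw [hβ1]
      exact ⟨0, htriv 1 0⟩
    · obtain ⟨p, _, hp⟩ := hcomp β 1 hβZ.1.1 hβ1 le_rfl (fun t ht h0 => by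
        have htZ : t ∈ Z := ⟨⟨hβZ.1.1.trans ht.1.le, ht.2.le⟩, h0⟩
        exact absurd ht.1 (not_lt.2 (le_csSup hZcomp.bddAbove htZ)))
      exact ⟨p, hp⟩
  obtain ⟨p₁, hp₁⟩ := hleft
  obtain ⟨p₂, hp₂⟩ := hright
  exact ⟨α, β, p₁, q, p₂, hαZ.1.1, hαβ, hβZ.1.2, hp₁, hmid, hp₂⟩

end Pool.Agent.CutLoci.H97
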